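import Pool.Agent.Q31.GLW.Stm

set_option autoImplicit false

namespace Pool.Agent.Q188.GLW

open Pool.Agent.Q31.GLW Module Submodule

theorem t_IND : S_IND := by
  intro F V _ _ _ k Z hk hP hZ
  by_contra hcon
  have hcon' : ∀ z : V, ∃ a b : F, a • z + b • k z ∈ Z ∧ ¬ (a = 0 ∧ b = 0) := by
    intro z
    by_contra h
    apply hcon
    refine ⟨z, fun a b hab => ?_⟩
    by_contra h2
    exact h ⟨a, b, hab, h2⟩
  have hfin : ∀ c : F, FiniteDimensional F
      (V ⧸ LinearMap.range ((k : V →ₗ[F] V) - c • LinearMap.id)) := by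
    rcases hP with h | h
    · exact absurd h hk
    · exact h
  have key : ∀ z, z ∉ Z → ∃ c : F, Z.mkQ (k z) = c • Z.mkQ z := by
    intro z hz
    obtain ⟨a, b, hab, hne⟩ := hcon' z
    have hb : b ≠ 0 := by
      intro hb
      subst hb
      have ha : a ≠ 0 := fun ha => hne ⟨ha, rfl⟩
      rw [zero_smul, add_zero] at hab
      exact hz ((Z.smul_mem_iff ha).1 hab)
    refine ⟨-(b⁻¹ * a), ?_⟩
    have h1 : Z.mkQ (a • z + b • k z) = 0 := by
      rw [← LinearMap.mem_ker, Submodule.ker_mkQ]; exact hab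
    rw [map_add, map_smul, map_smul] at h1
    have h2 : Z.mkQ (k z) = b⁻¹ • (b • Z.mkQ (k z)) := by
      rw [smul_smul, inv_mul_cancel₀ hb, one_smul]
    rw [h2, eq_neg_of_add_eq_zero_right h1, smul_neg, smul_smul, neg_smul]
  have hmem : ∀ z, z ∈ Z ↔ Z.mkQ z = 0 := by
    intro z
    rw [← LinearMap.mem_ker, Submodule.ker_mkQ]
  -- a vector outside of Z
  have hex : ∀ s : V ⧸ Z, ∃ z : V, Z.mkQ z ∉ span F {s} := by
    intro s
    by_contra h
    push Not at h
    apply hZ
    have htop : (⊤ : Submodule F (V ⧸ Z)) ≤ span F {s} := by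
      intro y _
      obtain ⟨z, rfl⟩ := Z.mkQ_surjective y
      exact h z
    exact Module.finite_def.2 ⟨{s}, by
      rw [Finset.coe_singleton]
      exact top_le_iff.1 htop⟩
  obtain ⟨z0, hz0⟩ := hex 0
  rw [Submodule.span_zero_singleton, Submodule.mem_bot] at hz0
  have hz0' : z0 ∉ Z := fun h => hz0 ((hmem z0).1 h)
  obtain ⟨c, hc⟩ := key z0 hz0'
  have step : ∀ w : V, Z.mkQ w ∉ span F {Z.mkQ z0} → Z.mkQ (k w) = c • Z.mkQ w := by
    intro w hw
    have hw0 : w ∉ Z := by
      intro h
      apply hw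
      rw [(hmem w).1 h]
      exact Submodule.zero_mem _
    have hs : w + z0 ∉ Z := by
      intro h
      apply hw
      have h1 := (hmem _).1 h
      rw [map_add] at h1
      rw [eq_neg_of_add_eq_zero_left h1]
      exact Submodule.neg_mem _ (Submodule.mem_span_singleton_self _)
    obtain ⟨d, hd⟩ := key w hw0
    obtain ⟨e, he⟩ := key _ hs
    rw [map_add, map_add, hd, hc, map_add, smul_add] at he
    -- (d - e) w = (e - c) z0
    have h3 : (d - e) • Z.mkQ w = (e - c) • Z.mkQ z0 := by
      rw [sub_smul, sub_smul, sub_eq_sub_iff_add_eq_add, he]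
      abel
    have hde : d - e = 0 := by
      by_contra hne
      apply hw
      rw [Submodule.mem_span_singleton]
      refine ⟨(d - e)⁻¹ * (e - c), ?_⟩
      rw [mul_smul, ← h3, smul_smul, inv_mul_cancel₀ hne, one_smul]
    rw [hde, zero_smul] at h3
    have hec : e - c = 0 := by
      rcases smul_eq_zero.1 h3.symm with h | h
      · exact h
      · exact absurd h hz0
    rw [hd, sub_eq_zero.1 hde, sub_eq_zero.1 hec]
  obtain ⟨z1, hz1⟩ := hex (Z.mkQ z0)
  have all : ∀ z : V, Z.mkQ (k z) = c • Z.mkQ z := by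
    intro z
    by_cases h : Z.mkQ z ∈ span F {Z.mkQ z0}
    · have h1 : Z.mkQ (z + z1) ∉ span F {Z.mkQ z0} := by
        intro h2
        rw [map_add] at h2
        exact hz1 ((Submodule.add_mem_iff_right _ h).1 h2)
      have h3 := step _ h1
      have h4 := step _ hz1
      rw [map_add, map_add, map_add, smul_add, h4] at h3
      exact add_right_cancel h3
    · exact step z h
  have hle : LinearMap.range ((k : V →ₗ[F] V) - c • LinearMap.id) ≤ Z := by
    rintro _ ⟨z, rfl⟩
    rw [hmem]
    simp only [LinearMap.sub_apply, LinearMap.smul_apply, LinearMap.id_apply, map_sub, map_smul]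
    exact sub_eq_zero.2 (all z)
  have := hfin c
  exact hZ (Module.Finite.of_surjective (Submodule.factor hle) (Submodule.factor_surjective hle))

end Pool.Agent.Q188.GLW
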